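import Pool.Agent.helper17.MK.Spec

set_option autoImplicit false

namespace Pool.Agent.MK

open Finset Real Pool.Agent.helper39.MT Pool.Agent.helper85.FC

theorem RU_one (w L : ℝ) (hw : 2 ≤ w) (hL : 0 ≤ L) (h : L ≤ Real.log w) : RR w L = 1 := by
  have hP : RLS.PP w (Real.exp L) = ∅ := by
    unfold RLS.PP
    rw [Finset.filter_eq_empty_iff]
    intro p hp hpp
    rw [Finset.mem_range] at hp
    have h1 : p ≤ ⌊Real.exp L⌋₊ := by omega
    have h2 : (p : ℝ) ≤ Real.exp L :=
      (Nat.cast_le.mpr h1).trans (Nat.floor_le (Real.exp_pos L).le)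
    have h3 : Real.exp L ≤ w := by
      calc Real.exp L ≤ Real.exp (Real.log w) := Real.exp_le_exp.mpr h
        _ = w := Real.exp_log (by linarith)
    linarith [hpp.2]
  unfold RR
  rw [hP, Finset.powerset_empty, Finset.filter_true_of_mem, Finset.sum_singleton,
    Finset.prod_empty]
  intro K hK
  rw [Finset.mem_singleton] at hK
  rw [hK, Finset.sum_empty]
  exact hL

theorem RU_mem (w L : ℝ) (p : ℕ) (hp : p ∈ RLS.PP w (Real.exp L)) :
    w < (p : ℝ) ∧ (p : ℝ) ≤ Real.exp L := by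
  unfold RLS.PP at hp
  rw [Finset.mem_filter, Finset.mem_range] at hp
  have h1 : p ≤ ⌊Real.exp L⌋₊ := by omega
  exact ⟨hp.2.2, (Nat.cast_le.mpr h1).trans (Nat.floor_le (Real.exp_pos L).le)⟩

theorem RU_step (h1 : RB_stmt) (u : ℝ) (G H : ℝ → ℝ) (hu : 4 ≤ u) (hD : RLS.DDE u G H)
    (C : ℝ) (hC : 0 < C)
    (hPM : ∀ w x : ℝ, 2 ≤ w → w ≤ x → ∀ ψ : ℝ → ℝ,
      (∀ t ∈ Set.Icc (Real.log w) (Real.log x), 0 ≤ ψ t) →
      AntitoneOn ψ (Set.Icc (Real.log w) (Real.log x)) →
      (∫ σ in (0 : ℝ)..Real.log (Real.log x / Real.log w), ψ (Real.exp σ * Real.log w)) -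
          C / Real.log w * ψ (Real.log w) ≤ ∑ p ∈ RLS.PP w x, 1 / (p : ℝ) * ψ (Real.log (p : ℝ)) ∧
      ∑ p ∈ RLS.PP w x, 1 / (p : ℝ) * ψ (Real.log (p : ℝ)) ≤
        (∫ σ in (0 : ℝ)..Real.log (Real.log x / Real.log w), ψ (Real.exp σ * Real.log w)) +
          C / Real.log w * ψ (Real.log w))
    (k1 : ∀ v, v ≤ 1 → G (v + 1) + H (v + 1) = 1)
    (k2 : ∀ v, 1 ≤ v → v + 1 ≤ u → (∫ σ in (0 : ℝ)..Real.log v,
      (G (v * Real.exp (-σ)) + H (v * Real.exp (-σ)))) = G (v + 1) + H (v + 1) - 1)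
    (k3 : MonotoneOn (fun s => G s + H s) (Set.Iic u))
    (n : ℕ)
    (ih : ∀ eps : ℝ, 0 < eps → ∃ w₀ : ℝ, 2 ≤ w₀ ∧ ∀ w L : ℝ, w₀ ≤ w → 0 ≤ L →
      L ≤ (u - 1) * Real.log w → L ≤ (n : ℝ) * Real.log w →
      RR w L ≤ G (L / Real.log w + 1) + H (L / Real.log w + 1) + eps)
    (eps : ℝ) (heps : 0 < eps) :
    ∃ w₀ : ℝ, 2 ≤ w₀ ∧ ∀ w L : ℝ, w₀ ≤ w → 0 ≤ L →
      L ≤ (u - 1) * Real.log w → L ≤ ((n + 1 : ℕ) : ℝ) * Real.log w →
      RR w L ≤ G (L / Real.log w + 1) + H (L / Real.log w + 1) + eps := by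
  have hlu : 0 < Real.log u := Real.log_pos (by linarith)
  obtain ⟨e1, he1⟩ : ∃ e1 : ℝ, e1 = eps / (2 * Real.log u) := ⟨_, rfl⟩
  have he1p : 0 < e1 := by rw [he1]; positivity
  obtain ⟨B, hB⟩ : ∃ B : ℝ, B = G u + H u := ⟨_, rfl⟩
  have hB1 : 1 ≤ B := by rw [hB]; linarith [hD.g1 u, hD.h0 u]
  obtain ⟨w1, hw1, IH⟩ := ih e1 he1p
  refine ⟨max w1 (Real.exp (2 * C * (B + e1) / eps)), hw1.trans (le_max_left _ _), ?_⟩
  intro w L hw hL hLu hLn
  have hww1 : w1 ≤ w := (le_max_left _ _).trans hw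
  have hw2 : 2 ≤ w := hw1.trans hww1
  have hwE : Real.exp (2 * C * (B + e1) / eps) ≤ w := (le_max_right _ _).trans hw
  have hlw0 : 0 < Real.log w := Real.log_pos (by linarith)
  have hlogw : 2 * C * (B + e1) / eps ≤ Real.log w := by
    rw [Real.le_log_iff_exp_le (by linarith)]
    exact hwE
  rcases le_or_gt L (Real.log w) with hcase | hcase
  · rw [RU_one w L hw2 hL hcase, k1 (L / Real.log w) ((div_le_one hlw0).mpr hcase)]
    linarith
  · obtain ⟨v, hv⟩ : ∃ v : ℝ, v = L / Real.log w := ⟨_, rfl⟩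
    have hv1 : 1 ≤ v := by rw [hv]; exact (one_le_div hlw0).mpr hcase.le
    have hvu : v ≤ u - 1 := by rw [hv]; exact (div_le_iff₀ hlw0).mpr hLu
    have hLv : L = v * Real.log w := by rw [hv]; field_simp
    have hLpos : 0 < L := hlw0.trans hcase
    have hexpL : w ≤ Real.exp L := by
      calc w = Real.exp (Real.log w) := (Real.exp_log (by linarith)).symm
        _ ≤ Real.exp L := Real.exp_le_exp.mpr hcase.le
    rw [h1 w L (by linarith) hL, ← hv]
    -- the function
    obtain ⟨ψ, hψ⟩ : ∃ ψ : ℝ → ℝ, ψ = fun t => G (L / t) + H (L / t) + e1 := ⟨_, rfl⟩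
    have hsum : ∑ p ∈ RLS.PP w (Real.exp L), 1 / (p : ℝ) * RR p (L - Real.log (p : ℝ)) ≤
        ∑ p ∈ RLS.PP w (Real.exp L), 1 / (p : ℝ) * ψ (Real.log (p : ℝ)) := by
      apply Finset.sum_le_sum
      intro p hp
      obtain ⟨hp1, hp2⟩ := RU_mem w L p hp
      have hp0 : (0 : ℝ) < p := by linarith
      have hlp : Real.log w ≤ Real.log p := Real.log_le_log (by linarith) hp1.le
      have hlp0 : 0 < Real.log (p : ℝ) := hlw0.trans_le hlp
      have hlpL : Real.log (p : ℝ) ≤ L := by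
        rw [← Real.log_exp L]; exact Real.log_le_log hp0 hp2
      apply mul_le_mul_of_nonneg_left _ (by positivity)
      have h5 := IH p (L - Real.log (p : ℝ)) (hww1.trans hp1.le) (by linarith) (by
          have : (u - 1) * Real.log w ≤ (u - 1) * Real.log p :=
            mul_le_mul_of_nonneg_left hlp (by linarith)
          linarith) (by
          have h6 : ((n + 1 : ℕ) : ℝ) * Real.log w ≤ ((n + 1 : ℕ) : ℝ) * Real.log p :=
            mul_le_mul_of_nonneg_left hlp (by positivity)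
          push_cast at h6 hLn
          nlinarith)
      have h7 : (L - Real.log (p : ℝ)) / Real.log (p : ℝ) + 1 = L / Real.log (p : ℝ) := by
        field_simp
        ring
      rw [h7] at h5
      rw [hψ]
      exact h5
    have hψ0 : ∀ t ∈ Set.Icc (Real.log w) (Real.log (Real.exp L)), 0 ≤ ψ t := by
      intro t _
      rw [hψ]
      show 0 ≤ G (L / t) + H (L / t) + e1
      linarith [hD.g1 (L / t), hD.h0 (L / t)]
    have hψa : AntitoneOn ψ (Set.Icc (Real.log w) (Real.log (Real.exp L))) := by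
      intro s hs t _ hst
      have hs0 : 0 < s := hlw0.trans_le hs.1
      have e2 : L / t ≤ L / s := div_le_div_of_nonneg_left hLpos.le hs0 hst
      have e3 : L / s ≤ L / Real.log w := div_le_div_of_nonneg_left hLpos.le hlw0 hs.1
      have e4 : L / s ≤ u := by rw [← hv] at e3; linarith
      have e5 := k3 (show L / t ∈ Set.Iic u from e2.trans e4) (show L / s ∈ Set.Iic u from e4) e2
      rw [hψ]
      show G (L / t) + H (L / t) + e1 ≤ G (L / s) + H (L / s) + e1
      have e6 : G (L / t) + H (L / t) ≤ G (L / s) + H (L / s) := e5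
      linarith
    have hpm := (hPM w (Real.exp L) hw2 hexpL ψ hψ0 hψa).2
    rw [Real.log_exp, ← hv] at hpm
    have hint : (∫ σ in (0 : ℝ)..Real.log v, ψ (Real.exp σ * Real.log w)) =
        G (v + 1) + H (v + 1) - 1 + e1 * Real.log v := by
      have e7 : ∀ σ : ℝ, ψ (Real.exp σ * Real.log w) =
          (G (v * Real.exp (-σ)) + H (v * Real.exp (-σ))) + e1 := by
        intro σ
        rw [hψ]
        show G (L / (Real.exp σ * Real.log w)) + H (L / (Real.exp σ * Real.log w)) + e1 = _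
        have e8 : L / (Real.exp σ * Real.log w) = v * Real.exp (-σ) := by
          rw [Real.exp_neg, hv]
          field_simp
        rw [e8]
      simp_rw [e7]
      have c1 : Continuous (fun σ : ℝ => G (v * Real.exp (-σ)) + H (v * Real.exp (-σ))) := by
        have c0 : Continuous (fun σ : ℝ => v * Real.exp (-σ)) := by fun_prop
        exact (hD.cG.comp c0).add (hD.cH.comp c0)
      rw [intervalIntegral.integral_add (c1.intervalIntegrable _ _)
        (intervalIntegrable_const), k2 v hv1 (by linarith), intervalIntegral.integral_const]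
      simp only [smul_eq_mul, sub_zero]
      ring
    rw [hint] at hpm
    have hψw : ψ (Real.log w) ≤ B + e1 := by
      rw [hψ]
      show G (L / Real.log w) + H (L / Real.log w) + e1 ≤ B + e1
      rw [← hv, hB]
      have e9 : G v + H v ≤ G u + H u :=
        k3 (show v ∈ Set.Iic u from by show v ≤ u; linarith) (show u ∈ Set.Iic u from le_refl u)
          (by linarith)
      linarith
    have hlv : Real.log v ≤ Real.log u := Real.log_le_log (by linarith) (by linarith)
    have e10 : e1 * Real.log v ≤ eps / 2 := by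
      calc e1 * Real.log v ≤ e1 * Real.log u := mul_le_mul_of_nonneg_left hlv he1p.le
        _ = eps / 2 := by rw [he1]; field_simp
    have e11 : C / Real.log w * ψ (Real.log w) ≤ eps / 2 := by
      calc C / Real.log w * ψ (Real.log w) ≤ C / Real.log w * (B + e1) :=
            mul_le_mul_of_nonneg_left hψw (by positivity)
        _ = C * (B + e1) / Real.log w := by ring
        _ ≤ eps / 2 := by
            rw [div_le_iff₀ hlw0]
            rw [div_le_iff₀ heps] at hlogw
            nlinarith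
    linarith

/-- The upper bound for `RR`. -/
theorem RU (h1 : RB_stmt) (h2 : PM_stmt) (h3 : KI_stmt) : RU_stmt := by
  intro u G H hu hD eps heps
  obtain ⟨C, hC, hPM⟩ := h2
  obtain ⟨k1, k2, k3⟩ := h3 u G H hu hD
  have key : ∀ n : ℕ, ∀ eps : ℝ, 0 < eps → ∃ w₀ : ℝ, 2 ≤ w₀ ∧ ∀ w L : ℝ, w₀ ≤ w → 0 ≤ L →
      L ≤ (u - 1) * Real.log w → L ≤ (n : ℝ) * Real.log w →
      RR w L ≤ G (L / Real.log w + 1) + H (L / Real.log w + 1) + eps := by
    intro n
    induction n with
    | zero =>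
      intro e he
      refine ⟨2, le_refl _, ?_⟩
      intro w L hw hL _ hL0
      have hlw0 : 0 < Real.log w := Real.log_pos (by linarith)
      have hL1 : L ≤ Real.log w := by
        have : L ≤ 0 := by simpa using hL0
        linarith
      rw [RU_one w L hw hL hL1, k1 (L / Real.log w) ((div_le_one hlw0).mpr hL1)]
      linarith
    | succ n ih =>
      intro e he
      exact RU_step h1 u G H hu hD C hC hPM k1 k2 k3 n ih e he
  obtain ⟨w₀, hw₀, hk⟩ := key ⌈u - 1⌉₊ eps heps
  refine ⟨w₀, hw₀, ?_⟩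
  intro w L hw hL hLu
  have hlw0 : 0 ≤ Real.log w := Real.log_nonneg (by linarith)
  exact hk w L hw hL hLu (hLu.trans (mul_le_mul_of_nonneg_right (Nat.le_ceil _) hlw0))

end Pool.Agent.MK
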